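import Mathlib
import Pool.Agent.Lib_helper97.Red.Main

/-!
Lattices over `ℤ[G]`, `G` finite: finitely many isomorphism classes in each rank, and finitely
generated automorphism groups.
-/

set_option linter.unusedSectionVars false
set_option linter.style.haveILetI false

namespace Lat

open Module

variable {G : Type*} [Group G]

section
variable {M N : Type*} [AddCommGroup M] [Module (MonoidAlgebra ℤ G) M]
  [AddCommGroup N] [Module (MonoidAlgebra ℤ G) N]

/-- an additive map commuting with `G` is `ℤ[G]`-linear -/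
def ofCommute (φ : M →+ N)
    (h : ∀ (g : G) (x : M), φ (MonoidAlgebra.of ℤ G g • x) = MonoidAlgebra.of ℤ G g • φ x) :
    M →ₗ[MonoidAlgebra ℤ G] N where
  toFun := φ
  map_add' := φ.map_add
  map_smul' a x := by
    induction a using MonoidAlgebra.induction_linear with
    | zero => simp
    | add a b ha hb =>
      simp only [RingHom.id_apply] at ha hb ⊢
      rw [add_smul, map_add, ha, hb, add_smul]
    | single g c =>
      have e : MonoidAlgebra.single g c = c • MonoidAlgebra.of ℤ G g := by
        simp [MonoidAlgebra.of_apply]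
      simp only [RingHom.id_apply]
      rw [e, smul_assoc, smul_assoc, map_zsmul, h]

@[simp] lemma ofCommute_apply (φ : M →+ N) (h) (x : M) :
    ofCommute (G := G) φ h x = φ x := rfl

end

section
variable {M N : Type*} [AddCommGroup M] [Module (MonoidAlgebra ℤ G) M]
  [AddCommGroup N] [Module (MonoidAlgebra ℤ G) N] {n : ℕ}

/-- the integral representation attached to a basis -/
noncomputable def rep (b : Basis (Fin n) ℤ M) : G →* (Matrix (Fin n) (Fin n) ℤ)ˣ :=
  MonoidHom.toHomUnits (((LinearMap.toMatrixAlgEquiv b).toRingEquiv.toRingHom.comp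
    (Module.toModuleEnd ℤ (S := MonoidAlgebra ℤ G) M)).toMonoidHom.comp (MonoidAlgebra.of ℤ G))

lemma rep_apply (b : Basis (Fin n) ℤ M) (g : G) :
    (rep (G := G) b g).1 = LinearMap.toMatrixAlgEquiv b
      (Module.toModuleEnd ℤ (S := MonoidAlgebra ℤ G) M (MonoidAlgebra.of ℤ G g)) := rfl

/-- an intertwining unit gives an isomorphism of lattices -/
noncomputable def equivOfConj (b : Basis (Fin n) ℤ M) (c : Basis (Fin n) ℤ N)
    (U : (Matrix (Fin n) (Fin n) ℤ)ˣ) (h : ∀ g, U * rep (G := G) b g = rep (G := G) c g * U) :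
    M ≃ₗ[MonoidAlgebra ℤ G] N :=
  let f : M →ₗ[ℤ] N := Matrix.toLin b c U.1
  let f' : N →ₗ[ℤ] M := Matrix.toLin c b U⁻¹.1
  have hf : ∀ (g : G) (x : M),
      f.toAddMonoidHom (MonoidAlgebra.of ℤ G g • x) = MonoidAlgebra.of ℤ G g • f.toAddMonoidHom x := by
    intro g x
    have h1 : f ∘ₗ (Module.toModuleEnd ℤ (S := MonoidAlgebra ℤ G) M (MonoidAlgebra.of ℤ G g))
        = (Module.toModuleEnd ℤ (S := MonoidAlgebra ℤ G) N (MonoidAlgebra.of ℤ G g)) ∘ₗ f := by
      apply (LinearMap.toMatrix b c).injective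
      rw [LinearMap.toMatrix_comp b b c, LinearMap.toMatrix_comp b c c]
      have h2 := congrArg Units.val (h g)
      rw [Units.val_mul, Units.val_mul, rep_apply, rep_apply] at h2
      simp only [f, LinearMap.toMatrix_toLin]
      exact h2
    exact LinearMap.congr_fun h1 x
  have hfg : f' ∘ₗ f = LinearMap.id := by
    rw [← Matrix.toLin_mul, U.inv_mul, Matrix.toLin_one]
  have hgf : f ∘ₗ f' = LinearMap.id := by
    rw [← Matrix.toLin_mul, U.mul_inv, Matrix.toLin_one]
  { ofCommute f.toAddMonoidHom hf with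
    invFun := f'
    left_inv := fun x => LinearMap.congr_fun hfg x
    right_inv := fun x => LinearMap.congr_fun hgf x }

lemma equivOfConj_apply (b : Basis (Fin n) ℤ M) (c : Basis (Fin n) ℤ N)
    (U : (Matrix (Fin n) (Fin n) ℤ)ˣ) (h : ∀ g, U * rep (G := G) b g = rep (G := G) c g * U)
    (x : M) : equivOfConj b c U h x = Matrix.toLin b c U.1 x := rfl

end

variable [Finite G]

/-- **finitely many isomorphism classes of lattices** -/
theorem lattice_classes {ι : Type*} (M : ι → Type*) [∀ i, AddCommGroup (M i)]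
    [∀ i, Module (MonoidAlgebra ℤ G) (M i)] [∀ i, Module.Free ℤ (M i)]
    [∀ i, Module.Finite ℤ (M i)] (n : ℕ) (hn : ∀ i, finrank ℤ (M i) = n) :
    ∃ (k : ℕ) (c : ι → Fin k), ∀ i j, c i = c j →
      Nonempty (M i ≃ₗ[MonoidAlgebra ℤ G] M j) := by
  classical
  obtain ⟨S, hS, hJ⟩ := Reduction.jordan_zassenhaus G n
  let b : ∀ i, Basis (Fin n) ℤ (M i) := fun i => Module.finBasisOfFinrankEq ℤ (M i) (hn i)
  choose σ hσ γ hγ using fun i => hJ (rep (G := G) (b i))
  haveI := hS.fintype
  let e := Fintype.equivFin S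
  refine ⟨Fintype.card S, fun i => e ⟨σ i, hσ i⟩, fun i j hij => ?_⟩
  have h1 : σ i = σ j := by
    have := e.injective hij
    exact congrArg Subtype.val this
  refine ⟨equivOfConj (b i) (b j) ((γ j)⁻¹ * γ i) fun g => ?_⟩
  have e1 := hγ i g
  have e2 := hγ j g
  rw [h1] at e1
  rw [← e1] at e2
  calc (γ j)⁻¹ * γ i * rep (b i) g = (γ j)⁻¹ * (γ i * rep (b i) g * (γ i)⁻¹) * γ i := by group
    _ = (γ j)⁻¹ * (γ j * rep (b j) g * (γ j)⁻¹) * γ i := by rw [e2]
    _ = rep (b j) g * ((γ j)⁻¹ * γ i) := by group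

/-- **finite generation of automorphism groups of lattices** -/
theorem aut_fg (M : Type*) [AddCommGroup M] [Module (MonoidAlgebra ℤ G) M]
    [Module.Free ℤ M] [Module.Finite ℤ M] : Group.FG (M ≃ₗ[MonoidAlgebra ℤ G] M) := by
  classical
  let n := finrank ℤ M
  let b : Basis (Fin n) ℤ M := Module.finBasis ℤ M
  have hfg := Reduction.centralizer_fg G n (rep (G := G) b)
  -- units in the centralizer give automorphisms
  have hcomm : ∀ U : Subgroup.centralizer (Set.range (rep (G := G) b)), ∀ g,
      U.1 * rep (G := G) b g = rep (G := G) b g * U.1 := fun U g =>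
    (Subgroup.mem_centralizer_iff.mp U.2 _ ⟨g, rfl⟩).symm
  let F : Subgroup.centralizer (Set.range (rep (G := G) b)) →* (M ≃ₗ[MonoidAlgebra ℤ G] M) := {
    toFun := fun U => equivOfConj b b U.1 (hcomm U)
    map_one' := by
      ext x
      rw [equivOfConj_apply]
      simp
    map_mul' := fun U V => by
      ext x
      rw [equivOfConj_apply, LinearEquiv.mul_apply, equivOfConj_apply, equivOfConj_apply]
      rw [Subgroup.coe_mul, Units.val_mul, Matrix.toLin_mul b b b]
      rfl }
  have hF : Function.Surjective F := by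
    intro φ
    let f : M →ₗ[ℤ] M := (φ : M →+ M).toIntLinearMap
    let f' : M →ₗ[ℤ] M := (φ.symm : M →+ M).toIntLinearMap
    have h1 : f ∘ₗ f' = LinearMap.id := by ext x; simp [f, f']
    have h2 : f' ∘ₗ f = LinearMap.id := by ext x; simp [f, f']
    let U : (Matrix (Fin n) (Fin n) ℤ)ˣ := {
      val := LinearMap.toMatrix b b f
      inv := LinearMap.toMatrix b b f'
      val_inv := by rw [← LinearMap.toMatrix_comp b b b, h1, LinearMap.toMatrix_id]
      inv_val := by rw [← LinearMap.toMatrix_comp b b b, h2, LinearMap.toMatrix_id] }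
    have hU : U ∈ Subgroup.centralizer (Set.range (rep (G := G) b)) := by
      rw [Subgroup.mem_centralizer_iff]
      rintro _ ⟨g, rfl⟩
      apply Units.ext
      rw [Units.val_mul, Units.val_mul, rep_apply]
      show LinearMap.toMatrix b b _ * LinearMap.toMatrix b b f
        = LinearMap.toMatrix b b f * LinearMap.toMatrix b b _
      rw [← LinearMap.toMatrix_comp b b b, ← LinearMap.toMatrix_comp b b b]
      congr 1
      ext x
      show MonoidAlgebra.of ℤ G g • φ x = φ (MonoidAlgebra.of ℤ G g • x)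
      rw [map_smul]
    refine ⟨⟨U, hU⟩, ?_⟩
    ext x
    show Matrix.toLin b b (LinearMap.toMatrix b b f) x = φ x
    rw [Matrix.toLin_toMatrix]
    rfl
  haveI : Group.FG (Subgroup.centralizer (Set.range (rep (G := G) b))) :=
    (Group.fg_iff_subgroup_fg _).mpr hfg
  exact Group.fg_of_surjective hF

end Lat
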