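import Mathlib
import Pool.Agent.Lib_helper97.Lat.Lattice

/-!
Finitely many `GL`-orbits of presentations of a lattice.
-/

set_option linter.unusedSectionVars false
set_option linter.style.haveILetI false

namespace Lat

open Module LinearMap

variable {G : Type*} [Group G] [Finite G]

/-- averaging: `|G| γ` extends from the kernel -/
theorem exists_extend {F F' P : Type*} [AddCommGroup F] [Module (MonoidAlgebra ℤ G) F]
    [AddCommGroup F'] [Module (MonoidAlgebra ℤ G) F'] [AddCommGroup P]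
    [Module (MonoidAlgebra ℤ G) P] (V : F →ₗ[MonoidAlgebra ℤ G] F')
    [hfree : Module.Free ℤ (range V)] (γ : ker V →ₗ[MonoidAlgebra ℤ G] P) :
    ∃ β : F →ₗ[MonoidAlgebra ℤ G] P, ∀ x : ker V, β x = (Nat.card G : ℤ) • γ x := by
  classical
  haveI := Fintype.ofFinite G
  -- additive section of `V`
  obtain ⟨s, hs⟩ := Module.projective_lifting_property
    ((V.rangeRestrict : F →+ range V).toIntLinearMap) (LinearMap.id : range V →ₗ[ℤ] range V)
    V.surjective_rangeRestrict
  have hs' : ∀ y : range V, V (s y) = y := by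
    intro y
    have := LinearMap.congr_fun hs y
    exact congrArg Subtype.val this
  -- additive retraction onto the kernel
  let r : F →+ ker V := {
    toFun := fun x => ⟨x - s (V.rangeRestrict x), by
      rw [mem_ker, map_sub, hs']; simp⟩
    map_zero' := by ext; simp
    map_add' := fun x y => by ext; simp; abel }
  have hr : ∀ x : ker V, r x = x := by
    intro x
    ext
    have : V.rangeRestrict (x : F) = 0 := by
      ext; simp
    show (x : F) - s (V.rangeRestrict x) = x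
    rw [this]; simp
  let β0 : F →+ P := ∑ g : G, (((DistribSMul.toAddMonoidHom P (MonoidAlgebra.of ℤ G g)).comp
    (γ : ker V →+ P)).comp r).comp
      (DistribSMul.toAddMonoidHom F (MonoidAlgebra.of ℤ G g⁻¹))
  have hβ0 : ∀ x, β0 x = ∑ g : G, MonoidAlgebra.of ℤ G g • γ (r (MonoidAlgebra.of ℤ G g⁻¹ • x)) := by
    intro x
    simp only [β0, AddMonoidHom.finsetSum_apply]
    rfl
  refine ⟨ofCommute β0 fun h x => ?_, fun x => ?_⟩
  · rw [hβ0, hβ0, Finset.smul_sum]
    refine (Fintype.sum_equiv (Equiv.mulLeft h) _ _ fun g => ?_).symm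
    simp only [Equiv.coe_mulLeft]
    rw [mul_inv_rev, ← smul_assoc, ← smul_assoc, smul_eq_mul, smul_eq_mul, ← map_mul, ← map_mul,
      inv_mul_cancel_right]
  · rw [ofCommute_apply, hβ0]
    have : ∀ g : G, MonoidAlgebra.of ℤ G g • γ (r (MonoidAlgebra.of ℤ G g⁻¹ • (x : F))) = γ x := by
      intro g
      have e1 : MonoidAlgebra.of ℤ G g⁻¹ • (x : F) = ((MonoidAlgebra.of ℤ G g⁻¹ • x : ker V) : F) := rfl
      rw [e1, hr, map_smul, ← smul_assoc, smul_eq_mul, ← map_mul, mul_inv_cancel, map_one, one_smul]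
    rw [Finset.sum_congr rfl fun g _ => this g]
    simp [Nat.card_eq_fintype_card]

/-- the key step: gluing an automorphism out of congruent data -/
theorem glue {F F' : Type*} [AddCommGroup F] [Module (MonoidAlgebra ℤ G) F]
    [AddCommGroup F'] [Module (MonoidAlgebra ℤ G) F'] [Module.Projective (MonoidAlgebra ℤ G) F]
    (V V' W : F →ₗ[MonoidAlgebra ℤ G] F') [Module.Free ℤ (range V')]
    (h1 : range V = range V') (h2 : range W = range V')
    (θ : ker W ≃ₗ[MonoidAlgebra ℤ G] ker V) (θ' : ker W ≃ₗ[MonoidAlgebra ℤ G] ker V')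
    (f f' : F →ₗ[MonoidAlgebra ℤ G] F) (hf : V ∘ₗ f = W) (hf' : V' ∘ₗ f' = W)
    (a a' γ : ker W →ₗ[MonoidAlgebra ℤ G] ker W)
    (ha : ∀ x : ker W, f x = θ (a x)) (ha' : ∀ x : ker W, f' x = θ' (a' x))
    (hγ : ∀ x, a x - a' x = (Nat.card G : ℤ) • γ x) :
    ∃ Φ : F ≃ₗ[MonoidAlgebra ℤ G] F, V' = V ∘ₗ Φ.toLinearMap := by
  have hVf : ∀ x, V (f x) = W x := fun x => LinearMap.congr_fun hf x
  have hVf' : ∀ x, V' (f' x) = W x := fun x => LinearMap.congr_fun hf' x
  -- the lift `g`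
  obtain ⟨g, hg⟩ := Module.projective_lifting_property W.rangeRestrict
    (V'.codRestrict (range W) fun x => by rw [h2]; exact ⟨x, rfl⟩) W.surjective_rangeRestrict
  have hWg : ∀ x, W (g x) = V' x := by
    intro x
    have := LinearMap.congr_fun hg x
    exact congrArg Subtype.val this
  let β' : F →ₗ[MonoidAlgebra ℤ G] ker V' := (f' ∘ₗ g - LinearMap.id).codRestrict (ker V') fun x => by
    simp [mem_ker, hVf', hWg]
  let ψ : ker V' ≃ₗ[MonoidAlgebra ℤ G] ker V := θ'.symm ≪≫ₗ θ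
  let g0 : ker V' →ₗ[MonoidAlgebra ℤ G] ker W := (g ∘ₗ (ker V').subtype).codRestrict (ker W) fun x => by
    simp [mem_ker, hWg]
  obtain ⟨β'', hβ''⟩ := exists_extend V' (θ.toLinearMap ∘ₗ γ ∘ₗ g0)
  let h' : F →ₗ[MonoidAlgebra ℤ G] F := f ∘ₗ g - (ker V).subtype ∘ₗ ψ.toLinearMap ∘ₗ β'
    - (ker V).subtype ∘ₗ β''
  have hVh : ∀ x, V (h' x) = V' x := by
    intro x
    have e1 : V (ψ (β' x) : F) = 0 := (ψ (β' x)).2
    have e2 : V (β'' x : F) = 0 := (β'' x).2
    simp [h', hVf, hWg, e1, e2]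
  have hψ : ∀ x : ker V', h' x = ψ x := by
    intro x
    have e0 : (g (x : F)) = ((g0 x : ker W) : F) := rfl
    have e1 : f (g (x : F)) = θ (a (g0 x)) := by rw [e0]; exact ha _
    have e2 : f' (g (x : F)) = θ' (a' (g0 x)) := by rw [e0]; exact ha' _
    have e3 : β' x = θ' (a' (g0 x)) - x := by
      ext
      simp [β', e2]
    have e4 : a (g0 x) = a' (g0 x) + (Nat.card G : ℤ) • γ (g0 x) := by
      rw [← hγ]; abel
    show f (g (x : F)) - (ψ (β' x) : F) - (β'' x : F) = ψ x
    rw [e1, e3, hβ'', e4, map_sub, map_add]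
    have e5 : ψ (θ' (a' (g0 x))) = θ (a' (g0 x)) := by simp [ψ]
    rw [e5]
    simp only [LinearMap.comp_apply, LinearEquiv.coe_coe, map_zsmul]
    push_cast
    abel
  have hbij : Function.Bijective h' := by
    constructor
    · rw [injective_iff_map_eq_zero]
      intro x hx
      have h3 : V' x = 0 := by rw [← hVh, hx, map_zero]
      have h4 := hψ ⟨x, h3⟩
      simp only at h4
      rw [hx] at h4
      have h5 : ψ ⟨x, h3⟩ = 0 := by
        ext
        rw [← h4]; rfl
      have h6 := (map_eq_zero_iff ψ ψ.injective).mp h5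
      exact congrArg Subtype.val h6
    · intro y
      have h3 : V y ∈ range V' := by rw [← h1]; exact ⟨y, rfl⟩
      obtain ⟨x, hx⟩ := h3
      have h4 : y - h' x ∈ ker V := by
        rw [mem_ker, map_sub, hVh, hx, sub_self]
      refine ⟨x + (ψ.symm ⟨y - h' x, h4⟩ : ker V'), ?_⟩
      rw [map_add, hψ, LinearEquiv.apply_symm_apply]
      simp
  refine ⟨LinearEquiv.ofBijective h' hbij, ?_⟩
  ext x
  simp [hVh]

theorem finite_of_inj {M N : Type*} [AddCommGroup M] [AddCommGroup N] [Module.Finite ℤ M]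
    (f : N →+ M) (hf : Function.Injective f) : Module.Finite ℤ N :=
  Module.Finite.of_injective f.toIntLinearMap hf

theorem free_of_inj {M N : Type*} [AddCommGroup M] [AddCommGroup N] [Module.Free ℤ M]
    [Module.Finite ℤ M] (f : N →+ M) (hf : Function.Injective f) : Module.Free ℤ N := by
  haveI := finite_of_inj f hf
  haveI : IsTorsionFree ℤ N := Function.Injective.moduleIsTorsionFree f.toIntLinearMap hf (by simp)
  infer_instance

theorem finrank_ker_add {M N : Type*} [AddCommGroup M] [AddCommGroup N] [Module.Finite ℤ M]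
    (V : M →ₗ[ℤ] N) :
    finrank ℤ (LinearMap.ker V) + finrank ℤ (LinearMap.range V) = finrank ℤ M := by
  rw [← LinearEquiv.finrank_eq V.quotKerEquivRange, add_comm,
    Submodule.finrank_quotient_add_finrank]

/-- reduction of the matrix of an endomorphism of a lattice modulo `N` -/
noncomputable def redMat {K : Type*} [AddCommGroup K] [Module (MonoidAlgebra ℤ G) K] {n : ℕ}
    (N : ℕ) (b : Basis (Fin n) ℤ K) (a : K →ₗ[MonoidAlgebra ℤ G] K) :
    Matrix (Fin n) (Fin n) (ZMod N) :=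
  (LinearMap.toMatrix b b (a : K →+ K).toIntLinearMap).map (Int.cast : ℤ → ZMod N)

lemma redMat_congr {K : Type*} [AddCommGroup K] [Module (MonoidAlgebra ℤ G) K] {n : ℕ}
    (N : ℕ) (b : Basis (Fin n) ℤ K) (a a' : K →ₗ[MonoidAlgebra ℤ G] K)
    (h : redMat N b a = redMat N b a') (x : K) : ∃ y, a x - a' x = (N : ℤ) • y := by
  have e1 : ∀ i j, ∃ z : ℤ, LinearMap.toMatrix b b (a : K →+ K).toIntLinearMap i j
      - LinearMap.toMatrix b b (a' : K →+ K).toIntLinearMap i j = N * z := by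
    intro i j
    have := congrFun (congrFun h i) j
    simp only [redMat, Matrix.map_apply] at this
    rw [← sub_eq_zero, ← Int.cast_sub, ZMod.intCast_zmod_eq_zero_iff_dvd] at this
    exact this
  choose z hz using e1
  have e2 : (a : K →+ K).toIntLinearMap - (a' : K →+ K).toIntLinearMap
      = (N : ℤ) • Matrix.toLin b b (Matrix.of z) := by
    apply (LinearMap.toMatrix b b).injective
    rw [map_sub, map_smul, LinearMap.toMatrix_toLin]
    ext i j
    simp [hz]
  exact ⟨_, LinearMap.congr_fun e2 x⟩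

/-- **finitely many orbits** of epimorphisms from a projective lattice onto a given lattice. -/
theorem orbits_finite' (F F' : Type*) [AddCommGroup F] [Module (MonoidAlgebra ℤ G) F]
    [AddCommGroup F'] [Module (MonoidAlgebra ℤ G) F'] [Module.Projective (MonoidAlgebra ℤ G) F]
    [Module.Free ℤ F] [Module.Finite ℤ F] [Module.Free ℤ F'] [Module.Finite ℤ F']
    (B : Submodule (MonoidAlgebra ℤ G) F') :
    ∃ (k : ℕ) (c : {V : F →ₗ[MonoidAlgebra ℤ G] F' // range V = B} → Fin k),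
      ∀ V V', c V = c V' → ∃ Φ : F ≃ₗ[MonoidAlgebra ℤ G] F, V'.1 = V.1 ∘ₗ Φ.toLinearMap := by
  classical
  set X := {V : F →ₗ[MonoidAlgebra ℤ G] F' // range V = B} with hX
  rcases isEmpty_or_nonempty X with hE | hE
  · exact ⟨0, fun V => (hE.false V).elim, fun V => (hE.false V).elim⟩
  have hfin : ∀ V : F →ₗ[MonoidAlgebra ℤ G] F', Module.Finite ℤ (ker V) := fun V =>
    finite_of_inj ((ker V).subtype : ker V →+ F) Subtype.val_injective
  have hfree : ∀ V : F →ₗ[MonoidAlgebra ℤ G] F', Module.Free ℤ (ker V) := fun V =>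
    free_of_inj ((ker V).subtype : ker V →+ F) Subtype.val_injective
  have hfreeR : ∀ V : F →ₗ[MonoidAlgebra ℤ G] F', Module.Free ℤ (range V) := fun V =>
    free_of_inj ((range V).subtype : range V →+ F') Subtype.val_injective
  have hrank : ∀ V : X, finrank ℤ (ker V.1) = finrank ℤ F - finrank ℤ B := by
    intro V
    have h := finrank_ker_add (V.1 : F →+ F').toIntLinearMap
    have h1 : finrank ℤ (LinearMap.ker (V.1 : F →+ F').toIntLinearMap)
      = finrank ℤ (LinearMap.ker V.1) := rfl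
    have h2 : finrank ℤ (LinearMap.range (V.1 : F →+ F').toIntLinearMap)
      = finrank ℤ (LinearMap.range V.1) := rfl
    have h3 : finrank ℤ (LinearMap.range V.1) = finrank ℤ B := by rw [V.2]
    omega
  obtain ⟨k1, κ, hκ⟩ := lattice_classes (G := G) (fun V : X => ker V.1) _ hrank
  let W : Fin k1 → X := Function.invFun κ
  have hW : ∀ V : X, κ (W (κ V)) = κ V := fun V => Function.invFun_eq ⟨V, rfl⟩
  let n := finrank ℤ F - finrank ℤ B
  let b : ∀ i, Basis (Fin n) ℤ (ker (W i).1) := fun i =>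
    Module.finBasisOfFinrankEq ℤ (ker (W i).1) (hrank (W i))
  let N := Nat.card G
  haveI : NeZero N := ⟨Nat.card_pos.ne'⟩
  -- the data
  have key : ∀ V : X, ∃ p : Fin k1 × Matrix (Fin n) (Fin n) (ZMod N),
      ∃ (θ : ker (W p.1).1 ≃ₗ[MonoidAlgebra ℤ G] ker V.1) (f : F →ₗ[MonoidAlgebra ℤ G] F)
        (a : ker (W p.1).1 →ₗ[MonoidAlgebra ℤ G] ker (W p.1).1),
        V.1 ∘ₗ f = (W p.1).1 ∧ (∀ x : ker (W p.1).1, f x = θ (a x)) ∧
        redMat N (b p.1) a = p.2 := by
    intro V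
    obtain ⟨θ⟩ := hκ _ _ (hW V)
    have hr : ∀ x, (W (κ V)).1 x ∈ range V.1 := by
      intro x
      have e : range V.1 = range (W (κ V)).1 := V.2.trans (W (κ V)).2.symm
      rw [e]
      exact ⟨x, rfl⟩
    obtain ⟨f, hf⟩ := Module.projective_lifting_property V.1.rangeRestrict
      ((W (κ V)).1.codRestrict (range V.1) hr) V.1.surjective_rangeRestrict
    have hVf : ∀ x, V.1 (f x) = (W (κ V)).1 x := by
      intro x
      have := LinearMap.congr_fun hf x
      exact congrArg Subtype.val this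
    let f0 : ker (W (κ V)).1 →ₗ[MonoidAlgebra ℤ G] ker V.1 :=
      (f ∘ₗ (ker (W (κ V)).1).subtype).codRestrict (ker V.1) fun x => by
        simp [mem_ker, hVf]
    obtain ⟨a0, ha0⟩ : ∃ a : ker (W (κ V)).1 →ₗ[MonoidAlgebra ℤ G] ker (W (κ V)).1,
        ∀ x : ker (W (κ V)).1, f x = θ (a x) := by
      refine ⟨θ.symm.toLinearMap ∘ₗ f0, fun x => ?_⟩
      simp only [LinearMap.comp_apply, LinearEquiv.coe_coe, LinearEquiv.apply_symm_apply]
      rfl
    exact ⟨⟨κ V, redMat N (b (κ V)) a0⟩, θ, f, a0, LinearMap.ext hVf, ha0, rfl⟩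
  choose p θ f a h1 h2 h3 using key
  let e := Fintype.equivFin (Fin k1 × Matrix (Fin n) (Fin n) (ZMod N))
  refine ⟨_, fun V => e (p V), fun V V' hc => ?_⟩
  have hp : p V = p V' := e.injective hc
  obtain ⟨θ1, f1, a1, g1, g2, g3⟩ : ∃ (θ : ker (W (p V).1).1 ≃ₗ[MonoidAlgebra ℤ G] ker V'.1)
      (f : F →ₗ[MonoidAlgebra ℤ G] F)
      (a : ker (W (p V).1).1 →ₗ[MonoidAlgebra ℤ G] ker (W (p V).1).1),
        V'.1 ∘ₗ f = (W (p V).1).1 ∧ (∀ x : ker (W (p V).1).1, f x = θ (a x)) ∧
        redMat N (b (p V).1) a = (p V).2 := by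
    rw [hp]
    exact ⟨θ V', f V', a V', h1 V', h2 V', h3 V'⟩
  -- congruence
  have hcong : ∀ x, ∃ y, a V x - a1 x = (N : ℤ) • y :=
    redMat_congr N _ _ _ ((h3 V).trans g3.symm)
  have hN : (N : ℤ) ≠ 0 := by
    have := NeZero.ne N
    exact_mod_cast this
  haveI := hfree (W (p V).1).1
  have hinj : ∀ y y' : ker (W (p V).1).1, (N : ℤ) • y = (N : ℤ) • y' → y = y' := fun y y' h =>
    smul_right_injective _ hN h
  choose γ hγ using hcong
  let γ' : ker (W (p V).1).1 →ₗ[MonoidAlgebra ℤ G] ker (W (p V).1).1 := {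
    toFun := γ
    map_add' := fun x y => by
      apply hinj
      rw [smul_add, ← hγ, ← hγ, ← hγ, map_add, map_add]
      abel
    map_smul' := fun r x => by
      apply hinj
      rw [RingHom.id_apply, smul_comm, ← hγ, ← hγ, map_smul, map_smul, smul_sub] }
  haveI := hfreeR V'.1
  exact glue V.1 V'.1 (W (p V).1).1 (V.2.trans V'.2.symm) ((W (p V).1).2.trans V'.2.symm)
    (θ V) θ1 (f V) f1 (h1 V) g1 (a V) a1 γ' (h2 V) g2 hγ

/-- (II.1) for free modules. -/
theorem orbits_finite (m₀ x₀ : ℕ)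
    (B : Submodule (MonoidAlgebra ℤ G) (Fin x₀ → MonoidAlgebra ℤ G)) :
    ∃ (k : ℕ) (c : {V : (Fin m₀ → MonoidAlgebra ℤ G) →ₗ[MonoidAlgebra ℤ G]
        (Fin x₀ → MonoidAlgebra ℤ G) // range V = B} → Fin k),
      ∀ V V', c V = c V' → ∃ Φ : (Fin m₀ → MonoidAlgebra ℤ G) ≃ₗ[MonoidAlgebra ℤ G]
        (Fin m₀ → MonoidAlgebra ℤ G), V'.1 = V.1 ∘ₗ Φ.toLinearMap :=
  orbits_finite' _ _ B

/-- (II.2): the automorphism group of a free `ℤ[G]`-module of finite rank is f.g. -/
theorem aut_free_fg (m : ℕ) : Group.FG ((Fin m → MonoidAlgebra ℤ G) ≃ₗ[MonoidAlgebra ℤ G]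
    (Fin m → MonoidAlgebra ℤ G)) := aut_fg _

end Lat
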