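import Mathlib
import Pool.Agent.Lib_helper97.Lat.Orbits
import Pool.Agent.Lib_helper55.WhK1

/-!
(II.2) in terms of `K₁`.
-/

namespace Lat

open Module

variable {G : Type*} [Group G] [Finite G]

/-- the classes of automorphisms of a free module of fixed rank form a f.g. subgroup of `K₁`. -/
theorem cl_range_fg (m : ℕ) :
    (MonoidHom.range (Pool.Wh.cl : ((Fin m → MonoidAlgebra ℤ G) ≃ₗ[MonoidAlgebra ℤ G]
      (Fin m → MonoidAlgebra ℤ G)) →* Pool.Wh.K1 (MonoidAlgebra ℤ G))).FG := by
  haveI := aut_free_fg (G := G) m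
  rw [← Group.fg_iff_subgroup_fg]
  exact Group.fg_of_surjective (MonoidHom.rangeRestrict_surjective _)

end Lat
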